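import Pool.Agent.E8helper2.ZB.Cases
import Pool.Agent.E8helper2.ZB.CasesL
import Pool.Agent.E8helper38.ZB.Lat
import Pool.Agent.E8helper86.ZB.Man2

/-!
# MP_d483fb_an: actions of arithmetic lattices on arbitrary closed manifolds

`M` is any closed connected smooth manifold, of dimension `m` and total mod `p` Betti number
`B_p = ∑ dim H^j(M; ℤ/p)` (no condition on the Euler characteristic), and `α` is a homomorphism
from `Δ` to `Diff(M)`, where `Δ` is any group commensurable with one of the following groups `Γ`.
Let `e` be a number such that `q ^ (e + 1)` does not divide `[Γ : Γ ∩ Δ]` (`q = p` in 3, `q = 2`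
otherwise). Then the kernel of `α` contains an element which is not central; hence `α` has finite
image if the normal subgroups of `Δ` are central or of finite index, as those of lattices of higher
rank are by the theorem of Margulis.

1. `Γ` contains the diagonal matrices with entries `1`, `-1` and an even number of entries `-1`,
and `m + (B_2 - 1) + e + gcd(n, 2) < n`. This holds for `Γ = SO(f; R)`, `f` any diagonal quadratic
form in `n` variables (part 0); the arithmetic lattices of `SO(r, s)`, `r + s = n`, given by
quadratic forms over number fields are commensurable with such groups. Here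
`min (d(G), v(G)) = n - 2` is the dimension of the quadric (or smaller for small `n`), and
`r(G) = 2 s - 1` for `r > s`; so the open range is `2 s - 1 ≤ m < r + s - 2`.
If `Γ` contains all diagonal matrices with entries `1`, `-1` then `m + (B_2 - 1) + e + 1 < n` is
enough.

2. `Γ` contains `SU(h; R)`, `h` any diagonal hermitian form in `n` variables, `R` contains a square
root `z` of `-1` with `z* = -z`, `gcd(n, 4) = 2 ^ δ` and `m + 2 (B_2 - 1) + e + δ < 2 n - 2`.

3. The same for a `p`-th root of unity `z`, `p` an odd prime number, `gcd(n, p) = p ^ δ` and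
`m / 2 + (B_p - 1) + e + δ < n - 1` (integer part of `m / 2`).

4. `Γ` contains `U(h; R)`, `R` an order in a quaternion algebra, `z ∈ R`, `z ^ 2 = -1`, `h` a
diagonal skew-hermitian form in `n` variables with entries commuting with `z` and
`m + 2 (B_2 - 1) + e < 2 n - 1`.

5. `Γ` contains the even sign changes and the even permutations of the first `r` coordinates, for
example `Γ = SO(f; R)` where the first `r` coefficients of `f` are equal (part 0), `Δ = Γ` and
`m + N_2 + 2 ∑_{q > 0} ⌊b_q / (2 ⌊r / 3⌋)⌋ + c < r`, where `b_q = dim H^q(M; ℤ/2)`, `N_2` is the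
number of `q > 0` with `b_q > 0`, `c = gcd(n, 2)` if `r = n`, `c = 1` if `r < n`. So in each degree
the Betti number counts as one as long as it is less than `2 ⌊r / 3⌋`.

The topological part: if the elementary abelian group `P = (ℤ/p)^k` acts smoothly on `M` then there
is a point of `M` whose isotropy group has corank at most `B_p - 1`; the order of `P` divides
`|kernel| p ^ (m' + B_p - 1)`, `m' = m` for `p = 2`, `m' = ⌊m / 2⌋` for odd `p`. It is proved for
finite partially ordered sets (heights of ideals of a polynomial ring, generated by the entries of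
`B_p - 1` obstructions of a chain of elements `λ_q` with `∂ λ_{q+1} = θ λ_q`). In 5 the sign changes
act on `H^q(M; ℤ/2)` with Loewy length at most `2 ⌊b_q / (2 ⌊r / 3⌋)⌋ + 1`, and the corank is less
than the sum of the Loewy lengths.
-/

set_option autoImplicit false

namespace Pool.Agent.Results.MP_d483fb_an.BettiLatticesH2

open scoped Manifold ContDiff
open Pool.Agent.E8helper72.ZO Pool.Agent.E8helper38.ZB Pool.Agent.E8helper86.ZB
open Pool.Agent.E8helper2.ZB Pool.Agent.Helper381 Module Matrix

variable {E : Type} [NormedAddCommGroup E] [NormedSpace ℝ E] [FiniteDimensional ℝ E]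
  {M : Type} [TopologicalSpace M] [ChartedSpace E M] [IsManifold 𝓘(ℝ, E) ∞ M]

/-- the total mod `p` Betti number of `M` minus one -/
noncomputable def betti (p : ℕ) [Fact p.Prime] (M : Type) [TopologicalSpace M] : ℕ :=
  (totalBetti (ZMod p) M).toNat - 1

/-- **Actions of classical lattices on closed manifolds, bounds by Betti numbers.**
`totalBetti (ZMod p) M` is the sum of the dimensions of all `H^j(M; ℤ/p)`, `betti p M` is this
number minus one. `SignBound`, …, `QuatBound` are the statements for the classes of groups in parts
1, …, 4, with the topological term `b`, and `SymBound` is the statement in part 5. -/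
theorem result [CompactSpace M] [T2Space M] [ConnectedSpace M] :
    -- the total Betti numbers are finite
    (∀ p : ℕ, ∀ [Fact p.Prime], totalBetti (ZMod p) M ≠ ⊤) ∧
    -- (0) the orthogonal groups `SO(f; R)` contain the even sign changes and, if the first `r`
    -- coefficients are equal, the even permutations of the first `r` coordinates
    (∀ (F : Type) [CommRing F] (R : Subring F) (n : ℕ) (f : Fin n → F), EvenSigns (SOG R f) ∧
      ∀ r, (∀ i j : Fin n, i.val < r → j.val < r → f i = f j) → HasSym r (SOG R f)) ∧
    -- (1) groups which contain the even sign changes, or all sign changes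
    SignBound E M (betti 2 M) ∧ AllSignBound E M (betti 2 M) ∧
    -- (2) special unitary groups and larger groups, fourth roots of unity
    FourBound E M (betti 2 M) ∧
    -- (3) special unitary groups and larger groups, roots of unity of odd prime order
    (∀ p : ℕ, ∀ [Fact p.Prime], p ≠ 2 → OddBound E M (betti p M) p) ∧
    -- (4) unitary groups of hermitian and skew-hermitian forms over quaternions
    QuatBound E M (betti 2 M) ∧
    -- (5) groups which contain even sign changes and even permutations
    SymBound E M :=
  ⟨fun p _ => (manU p E M Unit (fun _ => rfl) (fun _ x => x)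
      { one := fun _ => rfl, mul := fun _ _ _ => rfl, smooth := fun _ => contMDiff_id }).1,
    fun _ _ R _ f => ⟨fun g d hd hg => sog_sign R f g d hd hg, fun _ hf => hasSym_SOG R f hf⟩,
    fun _ _ _ _ _ _ h2 hΓ hd hs => sign_case manU h2 hΓ hd hs,
    fun _ _ _ _ _ _ h2 hΓ hd hs => sign_case_full manU h2 hΓ hd hs,
    fun _ _ _ R _ _ h _ _ _ _ h2 hzR hz2 hzs hΓ hδ hd hs =>
      four_case' manU4 h2 R hzR hz2 hzs h hΓ hδ hd hs,
    fun _ _ hp2 _ _ _ R _ _ h _ _ _ _ hzR hz hz1 hzs hΓ hδ hd hs =>
      odd_case' manU R hp2 hzR hz hz1 hzs h hΓ hδ hd hs,
    fun _ _ _ R _ w _ h _ _ _ h2 hzR hz2 hzs hw hh hΓ hd hs =>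
      quat_case' manU4 h2 R hzR hz2 hzs w hw h hh hΓ hd hs,
    symBound⟩

end Pool.Agent.Results.MP_d483fb_an.BettiLatticesH2
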