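import Pool.Agent.E8helper72.ZO.Main

/-!
# MP_d483fb_an: orthogonal, unitary and quaternionic lattices

`M` is a closed connected smooth manifold of dimension `m`, with Euler characteristic `χ`, and `α`
is a homomorphism from `Δ` to `Diff(M)`, where `Δ` is any group commensurable with one of the
following groups `Γ` (so that `[Γ : Γ ∩ Δ]` is finite). Let `e` be a number such that
`p ^ (e + 1)` does not divide `χ [Γ : Γ ∩ Δ]` (`p = 2` in 1, 2 and 4). Then the kernel of `α`
contains an element which is not central; hence `α` has finite image if the normal subgroups of `Δ`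
are central or of finite index, as those of lattices of higher rank are by the theorem of Margulis.

1. `Γ = SO(f; R)`, `f` any diagonal quadratic form in `n` variables, `m + e + gcd(n, 2) < n`. The
arithmetic lattices of `SO(r, s)`, `r + s = n`, given by quadratic forms over number fields are
commensurable with such groups, since quadratic forms can be diagonalized. Here
`min (d(G), v(G)) = n - 2` is the dimension of the quadric (or smaller for small `n`), and
`r(G) = 2 s - 1` for `r > s`; so the open range is `2 s - 1 ≤ m < r + s - 2`. All of it is covered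
if `Γ = Δ` and `χ` is odd, and if `χ = 2` and `m` is even (spheres and homology spheres of even
dimension).

2. `Γ` contains `SU(h; R)`, `h` any diagonal hermitian form in `n` variables, `R` contains a square
root `z` of `-1` with `z* = -z`, `gcd(n, 4) = 2 ^ δ` and `m + e + δ < 2 n - 2`. For example
`Γ = SU(h; ℤ[i])`, a lattice in `SU(r, s)`, `r + s = n`, and `Γ = SL_n(ℤ[i])`, a lattice in `SL_n(ℂ)`
(`min (d(G), v(G)) = 2 n - 3`, `2 n - 2`; `r(G) = 2 s - 1`, `n - 1`).

3. The same for a `p`-th root of unity `z`, `p` an odd prime number, `gcd(n, p) = p ^ δ` and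
`m / 2 + e + δ < n - 1` (integer part of `m / 2`). For example `SU(h; ℤ[ζ_p])` and `SL_n(ℤ[ζ_p])`; if
`p` does not divide `n`, `χ`, the whole range `m < 2 n - 2` is covered.

4. `Γ = U(h; R)`, `R` an order in a quaternion algebra, `z ∈ R`, `z ^ 2 = -1`, `h` a diagonal
skew-hermitian form in `n` variables with entries commuting with `z` and `m + e < 2 n - 1`. For
example the form `∑ x_j* (r_j i) y_j` and the Lipschitz order, which give lattices in `SO*(2 n)`,
where `min (d(G), v(G)) ≤ 2 n - 1` and `r(G) = n - 1` for even `n`.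
-/

set_option autoImplicit false

namespace Pool.Agent.Results.MP_d483fb_an.ClassicalLatticesH72

open scoped Manifold ContDiff
open Pool.Agent.E8helper72.ZO Module Matrix

variable {E : Type} [NormedAddCommGroup E] [NormedSpace ℝ E] [FiniteDimensional ℝ E]
  {M : Type} [TopologicalSpace M] [ChartedSpace E M] [IsManifold 𝓘(ℝ, E) ∞ M]

/-- **Actions of classical lattices on closed manifolds.** `PD z n` is the set of the invertible
diagonal matrices whose entries are powers of `z`; `FiniteActions E M Γ Δ S` says that for every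
homomorphism `α : Δ → Diff(M)` some element of `S` has a conjugate under `Γ` which is in the kernel
of `α` and is not central in the general linear group, and that `α` has finite image if every
normal subgroup of `Δ` consists of central elements or has finite index. -/
theorem result [CompactSpace M] [T2Space M] [ConnectedSpace M] :
    -- (1) orthogonal groups of all diagonal quadratic forms
    (∀ (F : Type) [CommRing F] (R : Subring F) (n : ℕ) (f : Fin n → F)
      (Γ Δ : Subgroup (Matrix (Fin n) (Fin n) F)ˣ) (e : ℕ), (2 : F) ≠ 0 → SOG R f ≤ Γ →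
      ¬ (2 : ℤ) ^ (e + 1) ∣ Pool.Agent.Helper381.eulerChar M * Δ.relIndex Γ →
      finrank ℝ E + e + Nat.gcd n 2 < n → FiniteActions E M Γ Δ (PD (-1) n)) ∧
    -- (2) special unitary groups and larger groups, fourth roots of unity
    (∀ (F : Type) [CommRing F] [StarRing F] (R : Subring F) (z : F) (n : ℕ) (h : Fin n → F)
      (Γ Δ : Subgroup (Matrix (Fin n) (Fin n) F)ˣ) (e δ : ℕ), (2 : F) ≠ 0 → z ∈ R →
      z * z = -1 → star z = -z → SUG R h ≤ Γ → Nat.gcd n 4 = 2 ^ δ →
      ¬ (2 : ℤ) ^ (e + 1) ∣ Pool.Agent.Helper381.eulerChar M * Δ.relIndex Γ →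
      finrank ℝ E + e + δ + 2 < 2 * n → FiniteActions E M Γ Δ (PD z n)) ∧
    -- (3) special unitary groups and larger groups, roots of unity of odd prime order
    (∀ (F : Type) [CommRing F] [StarRing F] (R : Subring F) (p : ℕ) (z : F) (n : ℕ)
      (h : Fin n → F) (Γ Δ : Subgroup (Matrix (Fin n) (Fin n) F)ˣ) (e δ : ℕ), p.Prime → p ≠ 2 →
      z ∈ R → z ^ p = 1 → z ≠ 1 → star z * z = 1 → SUG R h ≤ Γ → Nat.gcd n p = p ^ δ →
      ¬ (p : ℤ) ^ (e + 1) ∣ Pool.Agent.Helper381.eulerChar M * Δ.relIndex Γ →
      finrank ℝ E / 2 + e + δ + 1 < n → FiniteActions E M Γ Δ (PD z n)) ∧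
    -- (4) unitary groups of skew-hermitian forms over quaternions
    (∀ (O : Type) [Ring O] [StarRing O] (R : Subring O) (z : O) (w : Oˣ) (n : ℕ) (h : Fin n → O)
      (Γ Δ : Subgroup (Matrix (Fin n) (Fin n) O)ˣ) (e : ℕ), (2 : O) ≠ 0 → z ∈ R →
      z * z = -1 → star z = -z → (w : O) * z = -(z * w) → (∀ i, h i * z = z * h i) →
      UG R h ≤ Γ →
      ¬ (2 : ℤ) ^ (e + 1) ∣ Pool.Agent.Helper381.eulerChar M * Δ.relIndex Γ →
      finrank ℝ E + e + 1 < 2 * n → FiniteActions E M Γ Δ (PD z n)) :=
  ⟨fun _ _ R _ f _ _ _ h2 hΓ hd hs => orth_case h2 R f hΓ hd hs,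
    fun _ _ _ R _ _ h _ _ _ _ h2 hzR hz2 hzs hΓ hδ hd hs =>
      four_case h2 R hzR hz2 hzs h hΓ hd hδ hs,
    fun _ _ _ R _ _ _ h _ _ _ _ hp hp2 hzR hz hz1 hzs hΓ hδ hd hs =>
      odd_case R hp hp2 hzR hz hz1 hzs h hΓ hd hδ hs,
    fun _ _ _ R _ w _ h _ _ _ h2 hzR hz2 hzs hw hh hΓ hd hs =>
      quat_case h2 R hzR hz2 hzs w hw h hh hΓ hd hs⟩

end Pool.Agent.Results.MP_d483fb_an.ClassicalLatticesH72
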