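import Pool.Agent.E8helper2.ZB.CasesT

/-!
# MP_d483fb_an: homologically trivial actions of arithmetic lattices on all closed manifolds

`M` is any closed connected smooth manifold, `m = dim M`, and `N_p` is the number of the positive
degrees `j` with `H^j(M; ℤ/p) ≠ 0` (so `N_p ≤ m` by the classical vanishing theorem). `Δ` is any
group commensurable with one of the following groups `Γ`, and `α : Δ → Diff(M)` a homomorphism such
that the elements of order `p` in question act trivially on `H^*(M; ℤ/p)`, for example a
homomorphism into the group of diffeomorphisms homotopic to the identity (part 0). No other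
condition on the topology of `M` or on the action. Let `e` be a number such that `p ^ (e + 1)` does
not divide `[Γ : Γ ∩ Δ]` (`p = 2` in 1). Then the kernel of `α` contains an element which is not
central; hence `α` has finite image if the normal subgroups of `Δ` are central or of finite index,
as those of lattices of higher rank are by the theorem of Margulis.

1. `Γ` contains the diagonal matrices with entries `1`, `-1` and an even number of entries `-1`,
`m + N_2 + e + gcd(n, 2) < n`. This holds for `Γ = SO(f; R)`, `f` any diagonal quadratic
form in `n` variables; the arithmetic lattices of `SO(r, s)`, `r + s = n`, given by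
quadratic forms over number fields are commensurable with such groups. Here
`min (d(G), v(G)) = n - 2` is the dimension of the quadric (or smaller for small `n`), and
`r(G) = 2 s - 1` for `r > s`; so the open range is `2 s - 1 ≤ m < r + s - 2`.
If `Γ` contains all diagonal matrices with entries `1`, `-1` then `m + N_2 + e + 1 < n` is
enough.

2. `p` is an odd prime number, `Γ` contains `SU(h; R)`, `h` any diagonal hermitian form in `n`
variables, `R` contains a `p`-th root of unity `z ≠ 1` with `z* = z⁻¹`, `gcd(n, p) = p ^ δ` and
`⌊m / 2⌋ + N_p + e + δ < n - 1`.

The topological part: if the elementary abelian group `P = (ℤ/p)^k` acts smoothly on `M` and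
trivially on `H^*(M; ℤ/p)` then there is a point of `M` whose isotropy group has corank at most
`N_p`; the order of `P` divides `|kernel| p ^ (m' + N_p)`, `m' = m` for `p = 2`, `m' = ⌊m / 2⌋` for
odd `p` (for `p = 2` this is sharp for tori, on which `(ℤ/2)^(2 m)` acts effectively and
homologically trivially). It is proved for finite partially ordered sets (filtration of the
homology of a twisted complex over a polynomial ring: every product of `N_p + 1` elements of a
regular sequence would kill it).
-/

set_option autoImplicit false

namespace Pool.Agent.Results.MP_d483fb_an.HomologicallyTrivialH2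

open scoped Manifold ContDiff
open Pool.Agent.E8helper72.ZO Pool.Agent.E8helper38.ZB
open Pool.Agent.E8helper2.ZB Pool.Agent.Helper381 Module Matrix

variable {E : Type} [NormedAddCommGroup E] [NormedSpace ℝ E] [FiniteDimensional ℝ E]
  {M : Type} [TopologicalSpace M] [ChartedSpace E M] [IsManifold 𝓘(ℝ, E) ∞ M]

/-- **Homologically trivial actions of classical lattices on closed manifolds.** `npos p M` is the
number of the positive degrees in which `H^j(M; ℤ/p)` is not zero; `CohTriv k f j` says that the
map `f` induces the identity on `H^j(M; k)`. `SignBoundT`, `AllSignBoundT`, `OddBoundT` are the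
statements for the classes of groups in parts 1 and 2. -/
theorem result [CompactSpace M] [T2Space M] [ConnectedSpace M] :
    -- (0) maps homotopic to the identity act trivially on the cohomology; the orthogonal groups
    -- `SO(f; R)` contain the even sign changes
    ((∀ (k : Type) [CommRing k] (f : C(M, M)), (ContinuousMap.id M).Homotopic f →
      ∀ j, CohTriv k f j) ∧
    (∀ (F : Type) [CommRing F] (R : Subring F) (n : ℕ) (f : Fin n → F), EvenSigns (SOG R f))) ∧
    -- (1) groups which contain the even sign changes, or all sign changes
    SignBoundT E M ∧ AllSignBoundT E M ∧
    -- (2) special unitary groups and larger groups, roots of unity of odd prime order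
    (∀ p : ℕ, p.Prime → p ≠ 2 → OddBoundT E M p) :=
  ⟨⟨fun k _ f h j => cohTriv_of_homotopic k f h j,
    fun _ _ R _ f g d hd hg => sog_sign R f g d hd hg⟩,
    fun _ _ _ _ _ _ h2 hΓ hd hs => sign_caseT h2 hΓ hd hs,
    fun _ _ _ _ _ _ h2 hΓ hd hs => sign_case_fullT h2 hΓ hd hs,
    fun p hp hp2 => by
      have : Fact p.Prime := ⟨hp⟩
      exact fun _ _ _ R _ _ h _ _ _ _ hzR hz hz1 hzs hΓ hδ hd hs =>
        odd_caseT R hp2 hzR hz hz1 hzs h hΓ hδ hd hs⟩

end Pool.Agent.Results.MP_d483fb_an.HomologicallyTrivialH2
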