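import Pool.Agent.E8helper2.ZB.CasesW

/-!
# MP_d483fb_an: actions of classical lattices on manifolds with small Betti numbers

`M` is a closed connected smooth manifold, `m = dim M`, `b_q = dim H^q(M; ℤ/p)`. `Γ` is a group of
invertible `n × n` matrices over a ring, and `α : Δ → Diff(M)` is a homomorphism, `Δ` a group
commensurable with `Γ`. The conclusion is always that the kernel of `α` contains an element which
is not central; hence `α` has finite image if the normal subgroups of `Δ` are central or of finite
index, as those of lattices of higher rank are by the theorem of Margulis.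

1. `Γ` contains the even sign changes and the cyclic permutation of the first `ℓ` coordinates, `ℓ`
an odd prime number, for example `Γ = SO(f; R)`, `f` a diagonal quadratic form in `n` variables
whose first `ℓ` coefficients are equal. `[Γ : Γ ∩ Δ]` is less than `2 ^ ord_ℓ(2)` and not divisible
by `ℓ`, `m < ord_ℓ(2)`, and for `1 ≤ q ≤ m` either `b_q < ord_ℓ(2)` (`p = 2`) or the cyclic
permutations (the conjugates in `Δ`) act trivially on `H^q(M; ℤ/2)`. If `2` is a primitive root
modulo `ℓ` (`ℓ = 3, 5, 11, 13, 19, 29, 37, 53, 59, 61, ...`) these are all the manifolds of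
dimension at most `ℓ - 2` with Betti numbers at most `ℓ - 2`, and all manifolds of dimension at
most `ℓ - 2` for the actions by diffeomorphisms homotopic to the identity. For the lattices of
`SO(r, s)` given by the form with the coefficients `1` (`r` times) and `-1` (`s` times), `ℓ ≤ r`,
the open range of the conjecture is `2 s - 1 ≤ m < r + s - 2`.

2. The same for `p`-th roots of unity `z` instead of `-1`, for example `SU(h; R)` with `z* = z⁻¹` or
`U(h; R)` with `z* h_i z = h_i`, for numbers `ℓ` prime to `p` (not necessarily prime if `Δ`
contains `Γ`) with `m < ord_ℓ(p)` if `p = 2`, `⌊m / 2⌋ < ord_ℓ(p)` if `p` is odd, and for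
`1 ≤ q ≤ m` and the weight `w = p ⌊(q + 1) / 2⌋ + ((q + 1) mod 2)` either
`b_q < ord_{ℓ / gcd(ℓ, w)}(p)`, or `ℓ` does not divide `w` and the cyclic permutations act
trivially on `H^q(M; ℤ/p)`.

Method. Let `A = (ℤ/p)^k` act on a finite complex `X` and `ξ ∈ K^k`, `K` a field which contains
`F_p`. If there are chains `L_0, L_1, ...` with `L_0` of augmentation one and
`∂ L_{q+1} = (∑ ξ_i (g_i - 1)) L_q` (powers of exponent `p - 1` for odd `q`) then a point of `X` has
an isotropy group `B` such that `ξ` is in the span of `B`. A cyclic group of order `ℓ` which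
permutes the `g_i` acts on everything, `ξ` is an eigenvector of it, the `L_q` can be chosen as
eigenvectors (this gives the weights), and the eigenvalues which occur in `H_q(X; K)` come in
orbits under the Frobenius map of length `ord(p)`, hence not at all if `b_q` is small. The span of
`ξ` over `F_p` has dimension `ord_ℓ(p)`, and `B` acts faithfully on a tangent space modulo the
kernel.
-/

set_option autoImplicit false

namespace Pool.Agent.Results.MP_d483fb_an.SmallBettiNumbersH2

open scoped Manifold ContDiff
open Pool.Agent.H185.ZM Pool.Agent.E8helper72.ZO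
open Pool.Agent.E8helper2.ZB Pool.Agent.Helper381 Module Matrix

variable {E : Type} [NormedAddCommGroup E] [NormedSpace ℝ E] [FiniteDimensional ℝ E]
  {M : Type} [TopologicalSpace M] [ChartedSpace E M] [IsManifold 𝓘(ℝ, E) ∞ M]

/-- **Actions of classical lattices on manifolds with small Betti numbers.** -/
theorem result [CompactSpace M] [T2Space M] [ConnectedSpace M] :
    -- (0) orthogonal and unitary groups of diagonal forms with equal coefficients belong to the
    -- classes of groups below; if the cyclic permutations are homotopic to the identity they act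
    -- trivially on the cohomology
    (ExamplesW ∧ ∀ (p ℓ n : ℕ) (F : Type) [Ring F] (Γ Δ : Subgroup (Matrix (Fin n) (Fin n) F)ˣ)
      (α : Δ → (M ≃ₘ^∞⟮𝓘(ℝ, E), 𝓘(ℝ, E)⟯ M)),
      (∀ g : Δ, (∃ s : (Matrix (Fin n) (Fin n) F)ˣ, IsCyc ℓ s ∧ ∃ γ ∈ Γ,
        (g : (Matrix (Fin n) (Fin n) F)ˣ) = γ⁻¹ * s * γ) →
          (ContinuousMap.id M).Homotopic ⟨α g, (α g).continuous⟩) →
        ∀ q, RotTriv p ℓ Γ Δ α q) ∧
    -- (1) sign changes and a cyclic permutation of prime order
    SmallBetti E M ∧
    -- (2) roots of unity and a cyclic permutation
    (∀ p : ℕ, p.Prime → WreathBound E M p) :=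
  ⟨⟨examplesW, fun _ _ _ _ _ _ _ _ h q => rotTriv_of_homotopic h q⟩,
    smallBetti, wreathBound⟩

end Pool.Agent.Results.MP_d483fb_an.SmallBettiNumbersH2
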